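import Pool.Agent.Helper62.NT.Goals
import Pool.Agent.Helper85.TS.Glue

set_option autoImplicit false

noncomputable section

namespace Pool.Agent.Helper31.NT.EMBU

open Pool.Agent.Helper62.NT Filter Topology

theorem t (h1 : S_HULL) (h2 : S_SUBT) (h3 : S_EMBB) : S_EMBU := by
  intro N
  obtain ⟨c, hc, hE⟩ := h3 N
  refine ⟨Pool.Agent.Helper85.TS.cGl c 212, 4 * (53 + 212) + 1,
    Pool.Agent.Helper85.TS.cGl_pos hc (by norm_num), by norm_num, ?_⟩
  intro M _ _ hTL hCT
  rcases isEmpty_or_nonempty M with hM | hM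
  · exact ⟨fun x => (hM.false x).elim, fun x => (hM.false x).elim⟩
  obtain ⟨o⟩ := hM
  obtain ⟨H, instH, R, i, hi, hdep⟩ := h1 M hTL o
  have hcont : Continuous i := (Isometry.of_dist_eq hi).continuous
  have key : ∀ k : ℤ, ∃ Φ : H → H1, ∀ x ∈ i '' {x | dist x o ≤ (2 : ℝ) ^ (k + 2)},
      ‖Φ x‖ ≤ 53 * R.dep x ∧ ∀ y ∈ i '' {x | dist x o ≤ (2 : ℝ) ^ (k + 2)},
      c * dist x y ≤ dist (Φ x) (Φ y) ∧ dist (Φ x) (Φ y) ≤ 53 * dist x y := by
    intro k
    apply hE H R _ ((2 : ℝ) ^ (k + 2)) (zpow_pos (by norm_num) _)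
    · exact (TopologicalSpace.IsSeparable.of_separableSpace _).image hcont
    · rintro _ ⟨x, hx, rfl⟩
      rw [hdep]; exact hx
    · refine ⟨i o, ⟨o, ?_, rfl⟩, ?_⟩
      · simp only [Set.mem_ofPred_eq, dist_self]
        exact (zpow_pos (by norm_num) _).le
      · rw [hdep, dist_self]
    · intro s v hs hN hSK
      obtain ⟨m, hm1, hm2⟩ := h2 H R _ s N v hs hN hSK
      apply hCT s hs
      have hex : ∀ u, ∃ x : M, i x = (m u : H) := by
        intro u
        obtain ⟨x, _, hx⟩ := (m u).2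
        exact ⟨x, hx⟩
      choose m' hm' using hex
      have hd : ∀ u v, dist (m' u) (m' v) = dist (m u) (m v) := by
        intro u v
        rw [← hi, hm', hm']
        rfl
      refine ⟨m', ?_, ?_⟩
      · intro n u hu
        rw [hd]
        exact hm1 n u hu
      · intro x y u n n' hn hl hle
        rw [hd]
        exact hm2 x y u n n' hn hl hle
  choose Φ hΦ using key
  have hmem : ∀ n : ℤ, ∀ x ∈ Pool.Agent.Helper85.TS.Ann o n,
      i x ∈ i '' {x | dist x o ≤ (2 : ℝ) ^ (n + 2)} := by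
    intro n x hx
    exact ⟨x, hx.2, rfl⟩
  exact Pool.Agent.Helper85.TS.glue o (fun k x => Φ k (i x)) hc (by norm_num) (by norm_num)
    (by
      intro n x hx y hy
      rw [← dist_eq_norm, ← hi]
      exact ((hΦ n _ (hmem n x hx)).2 _ (hmem n y hy)).1)
    (by
      intro n x hx y hy
      rw [← dist_eq_norm, ← hi]
      exact ((hΦ n _ (hmem n x hx)).2 _ (hmem n y hy)).2)
    (by
      intro n x hx
      refine ((hΦ n _ (hmem n x hx)).1).trans ?_
      rw [hdep]
      have h4 : (2 : ℝ) ^ (n + 2) = 2 ^ n * 4 := by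
        rw [zpow_add₀ (by norm_num)]; norm_num
      have h5 := hx.2
      rw [h4] at h5
      linarith)

end Pool.Agent.Helper31.NT.EMBU
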